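import Mathlib
import Pool.Agent.Helper19.BD.Defs
import Pool.Agent.Helper19.BD.Assembly

set_option autoImplicit false

open Pool.Agent.Helper19.BD in
/-- **A primitive element of degree 3 of the Selberg class with infinitely many zeros on the critical line.**

`F` is the L-function of an unramified Grossencharacter `χ((α)) = ∏_j |σ_j(α)|^{i ν_j}` of the cubic field
`K = ℚ(ζ₇)⁺` with all `ν_j ≠ 0`. The proof has four parts.

* Hecke theory: `F` is entire, with functional equation of degree 3, and so are its twists by even characters.
* Primitivity: the classification of the elements of the Selberg class of degree `< 3/2` (degree `0` and `1`,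
  nothing else) reduces a factorisation of `F` to a factor of degree `1`, `L(s - iη, c)` with `c` periodic; this is
  excluded by the functional equations of `F` and of the quotient, because the inert primes force the quotient to have
  a singular boundary behaviour which it does not have.
* A bound `O(X^{5/2-δ})` for the exponential sum of `e(κ |N(x)|^{2/3})` over the integers `x` of `K` of size `X`,
  by differencing in a plane, Poisson summation in small boxes and counting.
* Hardy's method: a bounded number of zeros would contradict this bound. -/
theorem Pool.Agent.Results.MP_bd232a_nt.PrimitiveDegThree.result :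
    ∃ F : ℂ → ℂ, Differentiable ℂ F ∧ IsSelbergDeg F 3 ∧ IsPrimitive F ∧
      {s : ℂ | s.re = 1 / 2 ∧ F s = 0}.Infinite := by
  obtain ⟨H⟩ := Pool.Agent.Helper88.BD.hecke
  exact ⟨H.F, H.diff, H.isSelbergDeg, H.primitive, Pool.Agent.Helper83.BDF.infinite_zeros H⟩
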